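import Pool.Agent.P8H45.EIP.TypeI
import Pool.Agent.P8H45.EIP.TypeII

/-!
The answer to the question on finite partitions (Q2) for both types of exponential IP sets: it is
negative for type I (three cells suffice) and positive for type II.
-/

set_option autoImplicit false

namespace Pool.Agent.Results.MP_952e1b_co.FiniteColourings

open Pool.Agent.P8H45.EIP

/-- Type I: there is a partition of the natural numbers into three nonempty cells none of which is
an exponential IP set of type I. Type II: in every partition of the natural numbers into finitely
many cells some cell is an exponential IP set of type II. -/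
theorem result :
    (∃ c : ℕ → Fin 3, Function.Surjective c ∧ ∀ i, ¬ IsExpIPI (c ⁻¹' {i})) ∧
      (∀ (r : ℕ) (c : ℕ → Fin r), ∃ i, IsExpIPII (c ⁻¹' {i})) :=
  ⟨⟨c3, c3_surjective, typeI_three⟩, fun _ c => typeII_all c⟩

end Pool.Agent.Results.MP_952e1b_co.FiniteColourings
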