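import Pool.Agent.P8H45.EIP.TypeI

/-!
Exponential IP sets of type I: there is a partition of the natural numbers into three cells none of
which is an exponential IP set of type I (the residue modulo `3` of the iterated logarithm).
-/

set_option autoImplicit false

namespace Pool.Agent.Results.MP_952e1b_co.TypeOneThree

open Pool.Agent.P8H45.EIP

/-- There is a partition of the natural numbers into three nonempty cells none of which is an
exponential IP set of type I. -/
theorem result : ∃ c : ℕ → Fin 3, Function.Surjective c ∧ ∀ i, ¬ IsExpIPI (c ⁻¹' {i}) :=
  ⟨c3, c3_surjective, typeI_three⟩

end Pool.Agent.Results.MP_952e1b_co.TypeOneThree
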