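import Pool.Agent.P8H45.EIP.TypeII

/-!
Exponential IP sets of type II: in every finite partition of the natural numbers some cell is an
exponential IP set of type II.
-/

set_option autoImplicit false

namespace Pool.Agent.Results.MP_952e1b_co.TypeTwo

open Pool.Agent.P8H45.EIP

/-- In every colouring of the natural numbers with finitely many colours, some colour class is an
exponential IP set of type II. -/
theorem result (r : ℕ) (c : ℕ → Fin r) : ∃ i, IsExpIPII (c ⁻¹' {i}) := typeII_all c

end Pool.Agent.Results.MP_952e1b_co.TypeTwo
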